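import Pool.Agent.H5.BHG.Stmts2

/-!
Row CMA of the board `bhg` (MP_e3dc0b_lc).
-/

set_option autoImplicit false

namespace Pool.BHG

open Filter TMLib Pool.PG Pool.DPG

theorem cma_thm : CMAStmt := by
  intro g i X T hX hC v hv w hw hne u huv huw
  obtain ⟨-, -, -, -, h4, -⟩ := atl_thm g i X T hX.1
  have hd := fsb_thm.2.1 g X (att i g X T)
  rw [hd, Finset.mem_sdiff] at hv hw ⊢
  have hu : u ∈ fs g X := hC v hv.1 w hw.1 hne u huv huw
  refine ⟨hu, ?_⟩
  by_cases h : own g v = i
  · exact h4 v hv.1 hv.2 h u hu huv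
  · have hw' : own g w = i := by
      cases hv1 : own g v <;> cases hw1 : own g w <;> cases i <;> simp_all
    exact h4 w hw.1 hw.2 hw' u hu huw

end Pool.BHG
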